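import Mathlib
import Pool.Agent.Lib.MP_f2d8fc_an.Bridge

/-!
# Rank two: Gram representations by unit vectors of the plane
-/

open Matrix

namespace Pool.Agent.MPf2d8fcRankTwo

open Pool.Agent.MPf2d8fc

variable {n : ℕ}

/-- The sum of the products of the centred entries. -/
noncomputable def cov (x y : Fin n → ℝ) : ℝ := ∑ k, (x k - mean x) * (y k - mean y)

theorem cov_eq (hn : 0 < n) (x y : Fin n → ℝ) :
    cov x y = ∑ k, x k * y k - (∑ k, x k) * (∑ k, y k) / n := by
  have hn' : (n : ℝ) ≠ 0 := by exact_mod_cast hn.ne'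
  have h1 : cov x y = ∑ k, (x k * y k - mean x * y k - mean y * x k + mean x * mean y) :=
    Finset.sum_congr rfl fun k _ => by ring
  rw [h1, Finset.sum_add_distrib, Finset.sum_sub_distrib, Finset.sum_sub_distrib,
    ← Finset.mul_sum, ← Finset.mul_sum, Finset.sum_const, Finset.card_univ, Fintype.card_fin,
    nsmul_eq_mul, mean, mean]
  field_simp
  ring

/-- `A` is the Gram matrix of the vectors `(x i, y i)`. -/
def Rep (A : Matrix (Fin n) (Fin n) ℝ) (x y : Fin n → ℝ) : Prop :=
  ∀ i j, A i j = x i * x j + y i * y j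

theorem Rep.symm {A : Matrix (Fin n) (Fin n) ℝ} {x y : Fin n → ℝ} (h : Rep A x y) :
    Aᵀ = A := by
  ext i j
  rw [transpose_apply, h, h]
  ring

theorem Rep.mean_row {A : Matrix (Fin n) (Fin n) ℝ} {x y : Fin n → ℝ} (h : Rep A x y)
    (i : Fin n) : mean (A i) = x i * mean x + y i * mean y := by
  have h1 : ∑ k, A i k = x i * ∑ k, x k + y i * ∑ k, y k := by
    rw [Finset.mul_sum, Finset.mul_sum, ← Finset.sum_add_distrib]
    exact Finset.sum_congr rfl fun k _ => h i k
  rw [mean, h1, mean, mean]
  ring

theorem Rep.gram (hn : 0 < n) {A : Matrix (Fin n) (Fin n) ℝ} {x y : Fin n → ℝ}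
    (h : Rep A x y) (i j : Fin n) :
    (A * Hc n * A) i j = x i * x j * cov x x + (x i * y j + y i * x j) * cov x y
      + y i * y j * cov y y := by
  rw [gram_apply hn h.symm, cov, cov, cov, Finset.mul_sum, Finset.mul_sum, Finset.mul_sum,
    ← Finset.sum_add_distrib, ← Finset.sum_add_distrib]
  refine Finset.sum_congr rfl fun k _ => ?_
  rw [h.mean_row, h.mean_row, h i k, h j k]
  ring

theorem Rep.eq_mul {A : Matrix (Fin n) (Fin n) ℝ} {x y : Fin n → ℝ} (h : Rep A x y) :
    A = (Matrix.of ![x, y])ᵀ * Matrix.of ![x, y] := by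
  ext i j
  rw [h, mul_apply, Fin.sum_univ_two]
  simp

theorem Rep.psd {A : Matrix (Fin n) (Fin n) ℝ} {x y : Fin n → ℝ} (h : Rep A x y) :
    A.PosSemidef := by
  rw [h.eq_mul]
  have := Matrix.posSemidef_conjTranspose_mul_self (Matrix.of ![x, y])
  rwa [conjTranspose_eq_transpose_of_trivial] at this

/-- `A` has rank two when the vectors are not all parallel. -/
theorem Rep.rank {A : Matrix (Fin n) (Fin n) ℝ} {x y : Fin n → ℝ} (h : Rep A x y)
    {i j : Fin n} (hij : x i * y j - y i * x j ≠ 0) : A.rank = 2 := by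
  rw [h.eq_mul, Matrix.rank_transpose_mul_self]
  have h1 : LinearIndependent ℝ (Matrix.of ![x, y]).row := by
    have h2 : LinearIndependent ℝ ![x, y] := by
      rw [LinearIndependent.pair_iff]
      intro s t hst
      have e1 := congrFun hst i
      have e2 := congrFun hst j
      simp only [Pi.add_apply, Pi.smul_apply, smul_eq_mul, Pi.zero_apply] at e1 e2
      constructor
      · have : s * (x i * y j - y i * x j) = 0 := by linear_combination y j * e1 - y i * e2
        exact (mul_eq_zero.1 this).resolve_right hij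
      · have : t * (x i * y j - y i * x j) = 0 := by linear_combination x i * e2 - x j * e1
        exact (mul_eq_zero.1 this).resolve_right hij
    exact h2
  rw [h1.rank_matrix]
  simp

end Pool.Agent.MPf2d8fcRankTwo
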