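import Mathlib
import Pool.Agent.Lib.MP_f2d8fc_an_h54.Gram

/-!
# Rank two: existence of a Gram representation
-/

open Matrix

namespace Pool.Agent.MPf2d8fcRankTwo

open Pool.Agent.MPf2d8fc

variable {n : ℕ}

theorem exists_rep {A : Matrix (Fin n) (Fin n) ℝ} (hA : A.PosSemidef) (h2 : A.rank = 2) :
    ∃ x y : Fin n → ℝ, Rep A x y := by
  classical
  have hH := hA.isHermitian
  set U : Matrix (Fin n) (Fin n) ℝ := (hH.eigenvectorUnitary : Matrix (Fin n) (Fin n) ℝ) with hU
  set e : Fin n → ℝ := hH.eigenvalues with he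
  have hAe : A = U * diagonal e * star U := by
    have := hH.spectral_theorem
    rw [Unitary.conjStarAlgAut_apply] at this
    simpa using this
  have hc : Fintype.card {i // e i ≠ 0} = 2 := by
    rw [← h2, hH.rank_eq_card_non_zero_eigs]
  rw [Fintype.card_subtype, Finset.card_eq_two] at hc
  obtain ⟨p, q, hpq, hc⟩ := hc
  have h0 : ∀ k, k ≠ p → k ≠ q → e k = 0 := by
    intro k hp hq
    by_contra h
    have : k ∈ ({p, q} : Finset (Fin n)) := by
      rw [← hc]
      simp [h]
    simp [hp, hq] at this
  have hpos : ∀ k, 0 ≤ e k := fun k => hA.eigenvalues_nonneg k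
  refine ⟨fun i => Real.sqrt (e p) * U i p, fun i => Real.sqrt (e q) * U i q, fun i j => ?_⟩
  have h1 : A i j = ∑ k, U i k * e k * U j k := by
    conv_lhs => rw [hAe]
    rw [mul_apply]
    refine Finset.sum_congr rfl fun k _ => ?_
    rw [mul_diagonal, star_apply]
    simp
  have h3 : ∑ k, U i k * e k * U j k = ∑ k ∈ ({p, q} : Finset (Fin n)), U i k * e k * U j k := by
    symm
    refine Finset.sum_subset (Finset.subset_univ _) fun k _ hk => ?_
    simp only [Finset.mem_insert, Finset.mem_singleton, not_or] at hk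
    rw [h0 k hk.1 hk.2]
    ring
  rw [h1, h3, Finset.sum_pair hpq]
  have ep := Real.mul_self_sqrt (hpos p)
  have eq := Real.mul_self_sqrt (hpos q)
  linear_combination (-(U i p * U j p)) * ep - (U i q * U j q) * eq

theorem Rep.exists_det {A : Matrix (Fin n) (Fin n) ℝ} {x y : Fin n → ℝ} (h : Rep A x y)
    (h1 : ∀ i, A i i = 1) (h2 : A.rank = 2) : ∃ i j, x i * y j - y i * x j ≠ 0 := by
  by_contra hc
  push Not at hc
  have hn : 0 < n := by
    rcases Nat.eq_zero_or_pos n with h0 | h0
    · subst h0
      have := Matrix.rank_le_card_width A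
      rw [h2] at this
      simp at this
    · exact h0
  set o : Fin n := ⟨0, hn⟩ with ho
  have hA : A = vecMulVec (A o) (A o) := by
    ext i j
    rw [vecMulVec_apply, h i j, h o i, h o j]
    have e0 := h1 o
    rw [h o o] at e0
    have e1 := hc o i
    have e2 := hc o j
    linear_combination (-(x i * x j + y i * y j)) * e0 - (x i * y o) * e2 + (y i * x o) * e2
  have h3 := Matrix.rank_vecMulVec_le (A o) (A o)
  rw [← hA, h2] at h3
  omega

end Pool.Agent.MPf2d8fcRankTwo
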