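import Mathlib
import Pool.Agent.Lib.MP_f2d8fc_an_h54.Exists

/-!
# Rank two: three directions force a scalar covariance, otherwise there are two lines
-/

open Matrix

namespace Pool.Agent.MPf2d8fcRankTwo

open Pool.Agent.MPf2d8fc

variable {n : ℕ}

/-- Unit vectors with the fixed point equation for the numbers `P`, `Q`, `R`. -/
structure Sys (x y d : Fin n → ℝ) (P Q R : ℝ) : Prop where
  unit : ∀ i, x i * x i + y i * y i = 1
  pos : ∀ i, 0 < d i
  eqn : ∀ i j, x i * x j * P + (x i * y j + y i * x j) * R + y i * y j * Q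
    = d i * (x i * x j + y i * y j) * d j

variable {x y d : Fin n → ℝ} {P Q R : ℝ}

theorem Sys.det (h : Sys x y d P Q R) {i j : Fin n} (hij : x i * y j - y i * x j ≠ 0) :
    (d i * d j) ^ 2 = P * Q - R ^ 2 := by
  have u1 := h.unit i
  have u2 := h.unit j
  have e1 := h.eqn i i
  have e2 := h.eqn j j
  have e3 := h.eqn i j
  rw [u1] at e1
  rw [u2] at e2
  have k1 : (x i * x i * P + (x i * y i + y i * x i) * R + y i * y i * Q)
      * (x j * x j * P + (x j * y j + y j * x j) * R + y j * y j * Q)
      - (x i * x j * P + (x i * y j + y i * x j) * R + y i * y j * Q) ^ 2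
      = (P * Q - R ^ 2) * (x i * y j - y i * x j) ^ 2 := by ring
  rw [e1, e2, e3] at k1
  have k2 : 1 - (x i * x j + y i * y j) ^ 2 = (x i * y j - y i * x j) ^ 2 := by
    have : (x i * x i + y i * y i) * (x j * x j + y j * y j) - (x i * x j + y i * y j) ^ 2
      = (x i * y j - y i * x j) ^ 2 := by ring
    rwa [u1, u2, one_mul] at this
  have k3 : ((d i * d j) ^ 2 - (P * Q - R ^ 2)) * (x i * y j - y i * x j) ^ 2 = 0 := by
    rw [sub_mul, ← k1, ← k2]
    ring
  have k4 := (mul_eq_zero.1 k3).resolve_right (pow_ne_zero 2 hij)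
  linarith

/-- Parallel unit vectors are equal up to the sign given by their inner product. -/
theorem Sys.par (h : Sys x y d P Q R) {i j : Fin n} (hij : x i * y j - y i * x j = 0) :
    x j = (x i * x j + y i * y j) * x i ∧ y j = (x i * x j + y i * y j) * y i ∧
      (x i * x j + y i * y j) ^ 2 = 1 := by
  have u1 := h.unit i
  have u2 := h.unit j
  refine ⟨?_, ?_, ?_⟩
  · linear_combination (-(x j)) * u1 - y i * hij
  · linear_combination (-(y j)) * u1 + x i * hij
  · linear_combination u1 * (x j * x j + y j * y j) + u2 - (x i * y j - y i * x j) * hij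

theorem Sys.d_eq (h : Sys x y d P Q R) {i j : Fin n} (hij : x i * y j - y i * x j = 0) :
    d j = d i := by
  obtain ⟨p1, p2, p3⟩ := h.par hij
  set s := x i * x j + y i * y j with hs
  have e1 := h.eqn i i
  have e2 := h.eqn j j
  rw [h.unit] at e1 e2
  rw [p1, p2] at e2
  have e3 : d j ^ 2 = d i ^ 2 := by
    linear_combination (-1 : ℝ) * e2 + s ^ 2 * e1 + (d i ^ 2) * p3
  have hi := h.pos i
  have hj := h.pos j
  nlinarith [sq_nonneg (d i + d j), mul_pos hi hj]

/-- Two linearly independent vectors and equal `d`: the covariance is a multiple of the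
identity. -/
theorem scalar_of {a b a' b' D : ℝ} (hdet : a * b' - b * a' ≠ 0)
    (e1 : a * a * P + (a * b + b * a) * R + b * b * Q = D * (a * a + b * b))
    (e2 : a * a' * P + (a * b' + b * a') * R + b * b' * Q = D * (a * a' + b * b'))
    (e3 : a' * a' * P + (a' * b' + b' * a') * R + b' * b' * Q = D * (a' * a' + b' * b')) :
    P = D ∧ Q = D ∧ R = 0 := by
  have hd := pow_ne_zero 2 hdet
  refine ⟨?_, ?_, ?_⟩
  · have : (P - D) * (a * b' - b * a') ^ 2 = 0 := by
      linear_combination (b' * b') * e1 - 2 * b * b' * e2 + b * b * e3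
    have := (mul_eq_zero.1 this).resolve_right hd
    linarith
  · have : (Q - D) * (a * b' - b * a') ^ 2 = 0 := by
      linear_combination (a' * a') * e1 - 2 * a * a' * e2 + a * a * e3
    have := (mul_eq_zero.1 this).resolve_right hd
    linarith
  · have : R * (a * b' - b * a') ^ 2 = 0 := by
      linear_combination (-(a' * b')) * e1 + (a * b' + b * a') * e2 - a * b * e3
    exact (mul_eq_zero.1 this).resolve_right hd

/-- Three pairwise non-parallel directions. -/
theorem Sys.three (h : Sys x y d P Q R) {i j k : Fin n} (hij : x i * y j - y i * x j ≠ 0)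
    (hik : x i * y k - y i * x k ≠ 0) (hjk : x j * y k - y j * x k ≠ 0) :
    P = Q ∧ R = 0 := by
  have pi := h.pos i
  have pj := h.pos j
  have pk := h.pos k
  have e1 := h.det hij
  have e2 := h.det hik
  have e3 := h.det hjk
  have s1 : d j = d k := by
    have : (d i * d j) ^ 2 = (d i * d k) ^ 2 := by rw [e1, e2]
    have := (sq_eq_sq₀ (by positivity) (by positivity)).1 this
    exact mul_left_cancel₀ pi.ne' this
  have s2 : d i = d j := by
    have : (d i * d k) ^ 2 = (d j * d k) ^ 2 := by rw [e2, e3]
    have := (sq_eq_sq₀ (by positivity) (by positivity)).1 this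
    exact mul_right_cancel₀ pk.ne' this
  have f1 := h.eqn i i
  have f2 := h.eqn i j
  have f3 := h.eqn j j
  rw [← s2] at f2 f3
  obtain ⟨g1, g2, g3⟩ := scalar_of (P := P) (Q := Q) (R := R) (D := d i ^ 2) hij
    (by linear_combination f1) (by linear_combination f2) (by linear_combination f3)
  exact ⟨g1.trans g2.symm, g3⟩

/-- The matrix of two signed clusters with the correlation `t` between them. -/
def clusterMat (c : Fin n → Bool) (ε : Fin n → ℝ) (t : ℝ) : Matrix (Fin n) (Fin n) ℝ :=
  Matrix.of fun i j => ε i * ε j * (if c i = c j then 1 else t)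

/-- Cluster data: two nonempty clusters `c = true` and `c = false`, and signs. -/
structure Clusters (c : Fin n → Bool) (ε : Fin n → ℝ) : Prop where
  /-- `ε` consists of signs -/
  sign : ∀ i, ε i = 1 ∨ ε i = -1
  /-- the first cluster is nonempty -/
  fst : ∃ i, c i = true
  /-- the second cluster is nonempty -/
  snd : ∃ i, c i = false

/-- No three pairwise non-parallel directions: two signed clusters. -/
theorem Sys.two (h : Sys x y d P Q R) {A : Matrix (Fin n) (Fin n) ℝ} (hA : Rep A x y)
    {p q : Fin n} (hpq : x p * y q - y p * x q ≠ 0)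
    (hno : ∀ k, x p * y k - y p * x k = 0 ∨ x q * y k - y q * x k = 0) :
    ∃ (c : Fin n → Bool) (ε : Fin n → ℝ) (t : ℝ), Clusters c ε ∧ -1 < t ∧ t < 1 ∧
      A = clusterMat c ε t := by
  classical
  set c : Fin n → Bool := fun k => decide (x p * y k - y p * x k = 0) with hc
  have c1 : ∀ k, c k = true → x p * y k - y p * x k = 0 := fun k hk => by
    simpa [hc] using hk
  have c2 : ∀ k, c k = false → x q * y k - y q * x k = 0 := fun k hk => by
    have : ¬ (x p * y k - y p * x k = 0) := by simpa [hc] using hk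
    exact (hno k).resolve_left this
  set ε : Fin n → ℝ := fun k =>
    if c k = true then x p * x k + y p * y k else x q * x k + y q * y k with hε
  have v1 : ∀ k, c k = true → x k = ε k * x p ∧ y k = ε k * y p ∧ ε k ^ 2 = 1 := by
    intro k hk
    have e : ε k = x p * x k + y p * y k := by simp [hε, hk]
    rw [e]
    exact h.par (c1 k hk)
  have v2 : ∀ k, c k = false → x k = ε k * x q ∧ y k = ε k * y q ∧ ε k ^ 2 = 1 := by
    intro k hk
    have e : ε k = x q * x k + y q * y k := by simp [hε, hk]
    rw [e]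
    exact h.par (c2 k hk)
  have up := h.unit p
  have uq := h.unit q
  have ht : (x p * x q + y p * y q) ^ 2 < 1 := by
    have e1 : (x p * x q + y p * y q) ^ 2 = 1 - (x p * y q - y p * x q) ^ 2 := by
      have : (x p * x p + y p * y p) * (x q * x q + y q * y q) - (x p * x q + y p * y q) ^ 2
        = (x p * y q - y p * x q) ^ 2 := by ring
      rw [up, uq, one_mul] at this
      linarith
    have e2 : 0 < (x p * y q - y p * x q) ^ 2 := by positivity
    linarith
  have ht' := abs_lt.1 ((sq_lt_one_iff_abs_lt_one _).1 ht)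
  refine ⟨c, ε, x p * x q + y p * y q, ⟨?_, ⟨p, ?_⟩, ⟨q, ?_⟩⟩, ht'.1, ht'.2, ?_⟩
  · intro k
    have : ε k ^ 2 = 1 := by
      rcases hk : c k with _ | _
      · exact (v2 k hk).2.2
      · exact (v1 k hk).2.2
    exact mul_self_eq_one_iff.1 (by rw [← pow_two]; exact this)
  · have : x p * y p - y p * x p = 0 := by ring
    simp [hc, this]
  · simp [hc, hpq]
  · ext i j
    rw [hA i j, clusterMat, of_apply]
    rcases hi : c i with _ | _ <;> rcases hj : c j with _ | _
    · obtain ⟨a1, a2, a3⟩ := v2 i hi
      obtain ⟨b1, b2, b3⟩ := v2 j hj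
      rw [if_pos rfl, a1, a2, b1, b2]
      linear_combination ε i * ε j * uq
    · obtain ⟨a1, a2, a3⟩ := v2 i hi
      obtain ⟨b1, b2, b3⟩ := v1 j hj
      rw [if_neg (by decide), a1, a2, b1, b2]
      ring
    · obtain ⟨a1, a2, a3⟩ := v1 i hi
      obtain ⟨b1, b2, b3⟩ := v2 j hj
      rw [if_neg (by decide), a1, a2, b1, b2]
      ring
    · obtain ⟨a1, a2, a3⟩ := v1 i hi
      obtain ⟨b1, b2, b3⟩ := v1 j hj
      rw [if_pos rfl, a1, a2, b1, b2]
      linear_combination ε i * ε j * up

end Pool.Agent.MPf2d8fcRankTwo
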