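import Mathlib

/-!
# The quartic for the correlation between two signed clusters
-/

namespace Pool.Agent.MPf2d8fcRankTwo

/-- The quartic. -/
def quar (a b κ t : ℝ) : ℝ :=
  a * b * t ^ 4 - 2 * κ * (a + b) * t ^ 3 + ((a + b) ^ 2 - a * b + 3 * κ ^ 2) * t ^ 2
    - 2 * κ * (a + b) * t + κ ^ 2

/-- The quadratic which fixes the sign. -/
def quad (a b κ t : ℝ) : ℝ := (a + b) * t - κ * (1 + t ^ 2)

theorem quar_id (a b κ t : ℝ) :
    quad a b κ t ^ 2 - t ^ 2 * ((a + b * t ^ 2 - 2 * κ * t) * (a * t ^ 2 + b - 2 * κ * t))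
      = (1 - t ^ 2) * quar a b κ t := by
  unfold quad quar
  ring

theorem quar_neg (a b κ t : ℝ) : quar a b (-κ) (-t) = quar a b κ t := by
  unfold quar
  ring

theorem quad_neg (a b κ t : ℝ) : quad a b (-κ) (-t) = -quad a b κ t := by
  unfold quad
  ring

/-- The roots which are considered. -/
def Good (a b κ t : ℝ) : Prop := quar a b κ t = 0 ∧ 0 ≤ t * quad a b κ t

theorem Good.neg {a b κ t : ℝ} (h : Good a b κ t) : Good a b (-κ) (-t) := by
  refine ⟨by rw [quar_neg]; exact h.1, ?_⟩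
  rw [quad_neg]
  have := h.2
  linarith [neg_mul_neg t (quad a b κ t)]

theorem sum_gt {a b κ : ℝ} (ha : 0 < a) (hb : 0 < b) (h : κ ^ 2 < a * b) :
    2 * κ < a + b := by
  nlinarith [sq_nonneg (a - b), sq_nonneg (a + b - 2 * κ), sq_nonneg (a + b + 2 * κ)]

theorem Good.pos {a b κ t : ℝ} (ha : 0 < a) (hb : 0 < b) (hκ : 0 < κ) (h : Good a b κ t) :
    0 < t ∧ 0 ≤ quad a b κ t := by
  have h1 : 0 < t := by
    by_contra hc
    push Not at hc
    have h2 := h.1
    have e : quar a b κ t = a * b * t ^ 4 + 2 * κ * (a + b) * ((-t) * (t ^ 2 + 1))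
        + (a ^ 2 + a * b + b ^ 2 + 3 * κ ^ 2) * t ^ 2 + κ ^ 2 := by
      unfold quar
      ring
    have h3 : 0 ≤ (-t) * (t ^ 2 + 1) := mul_nonneg (by linarith) (by positivity)
    have h4 : 0 < quar a b κ t := by
      rw [e]
      positivity
    linarith
  exact ⟨h1, nonneg_of_mul_nonneg_right h.2 h1⟩

theorem Good.unique_pos {a b κ t u : ℝ} (ha : 0 < a) (hb : 0 < b) (hκ : 0 < κ)
    (hab : κ ^ 2 < a * b) (ht1 : t < 1) (hu1 : u < 1) (ht : Good a b κ t)
    (hu : Good a b κ u) : t = u := by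
  obtain ⟨t0, bt⟩ := ht.pos ha hb hκ
  obtain ⟨u0, bu⟩ := hu.pos ha hb hκ
  have e1 := ht.1
  have e2 := hu.1
  by_contra hne
  have key : (u - t) * (a * b * (t + u) * (t * u) ^ 2 + 2 * κ * (a + b) * (1 - t * u) * (t * u)
      - κ ^ 2 * (t + u)) = 0 := by
    have : (u - t) * (a * b * (t + u) * (t * u) ^ 2
      + 2 * κ * (a + b) * (1 - t * u) * (t * u) - κ ^ 2 * (t + u))
      = t ^ 2 * quar a b κ u - u ^ 2 * quar a b κ t := by
      unfold quar
      ring
    rw [this, e1, e2]
    ring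
  have key2 := (mul_eq_zero.1 key).resolve_left (sub_ne_zero.2 (Ne.symm hne))
  have hp : 0 < t * u := mul_pos t0 u0
  have hp1 : t * u < 1 := by nlinarith
  have b1 : κ * (1 + t ^ 2) * u ≤ (a + b) * (t * u) := by
    unfold quad at bt
    nlinarith
  have b2 : κ * (1 + u ^ 2) * t ≤ (a + b) * (t * u) := by
    unfold quad at bu
    nlinarith
  have b3 : κ * ((t + u) * (1 + t * u)) ≤ 2 * (a + b) * (t * u) := by
    nlinarith
  have b4 : κ ^ 2 * ((t + u) * (1 - (t * u) ^ 2)) ≤ 2 * κ * (a + b) * (1 - t * u) * (t * u) := by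
    have h5 := mul_le_mul_of_nonneg_left b3 (mul_nonneg hκ.le (sub_nonneg.2 hp1.le))
    linarith
  have b5 : 0 < (a * b - κ ^ 2) * ((t + u) * (t * u) ^ 2) := by
    have : 0 < a * b - κ ^ 2 := by linarith
    positivity
  nlinarith

theorem alpha_pos {a b κ t : ℝ} (ha : 0 < a) (hab : κ ^ 2 < a * b) :
    0 < a + b * t ^ 2 - 2 * κ * t := by
  have e : a * (a + b * t ^ 2 - 2 * κ * t) = (a - κ * t) ^ 2 + (a * b - κ ^ 2) * t ^ 2 := by ring
  have h1 : 0 < a * b - κ ^ 2 := by linarith
  have h2 : 0 < a * (a + b * t ^ 2 - 2 * κ * t) := by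
    rw [e]
    rcases eq_or_ne t 0 with h0 | h0
    · subst h0
      have : 0 < a ^ 2 := by positivity
      linarith [this]
    · have : 0 < t ^ 2 := by positivity
      positivity
  exact (mul_pos_iff_of_pos_left ha).1 h2

theorem exists_pos {a b κ : ℝ} (ha : 0 < a) (hb : 0 < b) (hκ : 0 < κ)
    (hab : κ ^ 2 < a * b) : ∃ t, 0 < t ∧ t < 1 ∧ Good a b κ t := by
  have hs := sum_gt ha hb hab
  have c1 : Continuous (quad a b κ) := by
    unfold quad
    fun_prop
  have c2 : Continuous (quar a b κ) := by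
    unfold quar
    fun_prop
  have q0 : quad a b κ 0 = -κ := by unfold quad; ring
  have q1 : quad a b κ 1 = a + b - 2 * κ := by unfold quad; ring
  obtain ⟨c, hc, hc0⟩ : ∃ c ∈ Set.Icc (0 : ℝ) 1, quad a b κ c = 0 := by
    have := intermediate_value_Icc (zero_le_one' ℝ) c1.continuousOn
    exact this ⟨by rw [q0]; linarith, by rw [q1]; linarith⟩
  have hcp : 0 < c := by
    rcases hc.1.lt_or_eq with h | h
    · exact h
    · rw [← h, q0] at hc0
      linarith
  have hcl : c < 1 := by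
    rcases hc.2.lt_or_eq with h | h
    · exact h
    · rw [h, q1] at hc0
      linarith
  have r1 : quar a b κ 1 = (a + b - 2 * κ) ^ 2 := by unfold quar; ring
  have r1p : 0 < quar a b κ 1 := by
    rw [r1]
    have : 0 < a + b - 2 * κ := by linarith
    positivity
  have rc : quar a b κ c < 0 := by
    have e := quar_id a b κ c
    rw [hc0] at e
    have p1 := alpha_pos (t := c) ha hab
    have p2 := alpha_pos (t := c) hb (by rwa [mul_comm] : κ ^ 2 < b * a)
    have p3 : 0 < a * c ^ 2 + b - 2 * κ * c := by linarith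
    have p4 : 0 < c ^ 2 * ((a + b * c ^ 2 - 2 * κ * c) * (a * c ^ 2 + b - 2 * κ * c)) := by
      positivity
    have p5 : 0 < 1 - c ^ 2 := by nlinarith
    by_contra hcon
    push Not at hcon
    have := mul_nonneg p5.le hcon
    nlinarith
  obtain ⟨t, ht, ht0⟩ : ∃ t ∈ Set.Icc c 1, quar a b κ t = 0 := by
    have := intermediate_value_Icc hcl.le c2.continuousOn
    exact this ⟨rc.le, r1p.le⟩
  have ht1 : t < 1 := by
    rcases ht.2.lt_or_eq with h | h
    · exact h
    · rw [h] at ht0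
      linarith
  have htp : 0 < t := lt_of_lt_of_le hcp ht.1
  refine ⟨t, htp, ht1, ht0, ?_⟩
  have e : c * quad a b κ t = κ * ((t - c) * (1 - c * t)) := by
    have : c * quad a b κ t = κ * ((t - c) * (1 - c * t)) + t * quad a b κ c := by
      unfold quad
      ring
    rw [this, hc0]
    ring
  have e2 : 0 ≤ c * quad a b κ t := by
    rw [e]
    have h1 : 0 ≤ t - c := by linarith [ht.1]
    have h2 : 0 ≤ 1 - c * t := by nlinarith
    positivity
  have e3 : 0 ≤ quad a b κ t := nonneg_of_mul_nonneg_right e2 hcp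
  exact mul_nonneg htp.le e3

/-- Exactly one `t` in the interval `(-1, 1)`. It has the sign of `κ`. -/
theorem exists_unique {a b κ : ℝ} (ha : 0 < a) (hb : 0 < b) (hab : κ ^ 2 < a * b) :
    (∃ t, -1 < t ∧ t < 1 ∧ Good a b κ t) ∧
    (∀ t u, -1 < t → t < 1 → Good a b κ t → -1 < u → u < 1 → Good a b κ u → t = u) ∧
    (∀ t, Good a b κ t → SignType.sign t = SignType.sign κ) := by
  rcases lt_trichotomy κ 0 with h | h | h
  · have h' : 0 < -κ := by linarith
    have hab' : (-κ) ^ 2 < a * b := by rwa [neg_sq]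
    refine ⟨?_, ?_, ?_⟩
    · obtain ⟨t, t0, t1, ht⟩ := exists_pos ha hb h' hab'
      refine ⟨-t, by linarith, by linarith, ?_⟩
      have := ht.neg
      rwa [neg_neg] at this
    · intro t u a1 a2 a3 b1 b2 b3
      have := Good.unique_pos ha hb h' hab' (by linarith) (by linarith) a3.neg b3.neg
      linarith
    · intro t ht
      have := (ht.neg.pos ha hb h').1
      rw [sign_neg (by linarith : t < 0), sign_neg h]
  · subst h
    have q : ∀ t, quar a b 0 t = (a * b * t ^ 2 + (a ^ 2 + a * b + b ^ 2)) * t ^ 2 := by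
      intro t
      unfold quar
      ring
    have z : ∀ t, Good a b 0 t → t = 0 := by
      intro t ht
      have h1 := ht.1
      rw [q] at h1
      have h2 : 0 < a * b * t ^ 2 + (a ^ 2 + a * b + b ^ 2) := by positivity
      have h3 := (mul_eq_zero.1 h1).resolve_left h2.ne'
      exact pow_eq_zero_iff (two_ne_zero) |>.1 h3
    refine ⟨⟨0, by norm_num, by norm_num, ?_, ?_⟩, ?_, ?_⟩
    · rw [q]; ring
    · rw [zero_mul]
    · intro t u _ _ h1 _ _ h2
      rw [z t h1, z u h2]
    · intro t ht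
      rw [z t ht]
  · refine ⟨?_, ?_, ?_⟩
    · obtain ⟨t, t0, t1, ht⟩ := exists_pos ha hb h hab
      exact ⟨t, by linarith, t1, ht⟩
    · intro t u _ a2 a3 _ b2 b3
      exact Good.unique_pos ha hb h hab a2 b2 a3 b3
    · intro t ht
      have := (ht.pos ha hb h).1
      rw [sign_pos this, sign_pos h]

end Pool.Agent.MPf2d8fcRankTwo
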