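import Mathlib
import Pool.Agent.Lib.MP_f2d8fc_an_h54.Dich
import Pool.Agent.Lib.MP_f2d8fc_an_h54.Quartic

/-!
# Rank two: the matrices of two signed clusters
-/

open Matrix

namespace Pool.Agent.MPf2d8fcRankTwo

open Pool.Agent.MPf2d8fc

variable {n : ℕ}

/-- The size of a cluster. -/
def csize (c : Fin n → Bool) (b : Bool) : ℝ := ∑ i, if c i = b then 1 else 0

/-- The sum of the signs of a cluster. -/
def csum (c : Fin n → Bool) (ε : Fin n → ℝ) (b : Bool) : ℝ := ∑ i, if c i = b then ε i else 0

/-- The number `m - s ^ 2 / n` of a cluster with size `m` and sign sum `s`. -/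
noncomputable def act (c : Fin n → Bool) (ε : Fin n → ℝ) (b : Bool) : ℝ :=
  csize c b - csum c ε b ^ 2 / n

/-- The number `s * s' / n` for the two sign sums. -/
noncomputable def kap (c : Fin n → Bool) (ε : Fin n → ℝ) : ℝ :=
  csum c ε true * csum c ε false / n

variable {c : Fin n → Bool} {ε : Fin n → ℝ}

theorem Clusters.sq (h : Clusters c ε) (i : Fin n) : ε i * ε i = 1 := by
  rcases h.sign i with e | e <;> rw [e] <;> norm_num

theorem csize_add : csize c true + csize c false = n := by
  rw [csize, csize, ← Finset.sum_add_distrib]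
  have : ∀ i : Fin n, ((if c i = true then (1 : ℝ) else 0) + if c i = false then 1 else 0) = 1 := by
    intro i
    rcases c i with _ | _ <;> simp
  rw [Finset.sum_congr rfl fun i _ => this i]
  simp

theorem csize_pos {b : Bool} (h : ∃ i, c i = b) : 0 < csize c b := by
  obtain ⟨i, hi⟩ := h
  refine Finset.sum_pos' (fun j _ => ?_) ⟨i, Finset.mem_univ i, ?_⟩
  · split_ifs <;> norm_num
  · rw [if_pos hi]
    norm_num

theorem Clusters.le_one (h : Clusters c ε) (i : Fin n) : |ε i| = 1 := by
  rcases h.sign i with e | e <;> rw [e] <;> norm_num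

theorem Clusters.csum_le (h : Clusters c ε) (b : Bool) : |csum c ε b| ≤ csize c b := by
  refine (Finset.abs_sum_le_sum_abs _ _).trans (Finset.sum_le_sum fun i _ => ?_)
  split_ifs
  · exact (h.le_one i).le
  · simp

theorem Clusters.csum_lt (h : Clusters c ε) {i j : Fin n} (hij : c i = c j) (he : ε i ≠ ε j) :
    csum c ε (c i) ^ 2 < csize c (c i) ^ 2 := by
  obtain ⟨p, q, hp, hq, hcp, hcq⟩ : ∃ p q, ε p = 1 ∧ ε q = -1 ∧ c p = c i ∧ c q = c i := by
    rcases h.sign i with e | e <;> rcases h.sign j with f | f
    · exact absurd (e.trans f.symm) he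
    · exact ⟨i, j, e, f, rfl, hij.symm⟩
    · exact ⟨j, i, f, e, hij.symm, rfl⟩
    · exact absurd (e.trans f.symm) he
  have h1 : csum c ε (c i) < csize c (c i) := by
    refine Finset.sum_lt_sum (fun k _ => ?_) ⟨q, Finset.mem_univ q, ?_⟩
    · split_ifs
      · rcases h.sign k with e | e <;> linarith
      · exact le_refl _
    · rw [if_pos hcq, if_pos hcq, hq]
      norm_num
  have h2 : -csize c (c i) < csum c ε (c i) := by
    rw [csize, csum, ← Finset.sum_neg_distrib]
    refine Finset.sum_lt_sum (fun k _ => ?_) ⟨p, Finset.mem_univ p, ?_⟩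
    · split_ifs
      · rcases h.sign k with e | e <;> linarith
      · simp
    · rw [if_pos hcp, if_pos hcp, hp]
      norm_num
  exact sq_lt_sq' h2 h1

/-- In a cluster with one sign the sign sum is the size, up to sign. -/
theorem csum_const {b : Bool} {s : ℝ} (h : ∀ i, c i = b → ε i = s) :
    csum c ε b = s * csize c b := by
  rw [csum, csize, Finset.mul_sum]
  refine Finset.sum_congr rfl fun i _ => ?_
  split_ifs with hi
  · rw [h i hi, mul_one]
  · rw [mul_zero]

theorem Clusters.n_pos (h : Clusters c ε) : 0 < n := by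
  obtain ⟨i, _⟩ := h.fst
  exact lt_of_le_of_lt (Nat.zero_le _) i.2

theorem act_aux {m m' s N : ℝ} (hm : 0 < m) (hm' : 0 < m') (hN : m + m' = N) (hs : |s| ≤ m) :
    0 < m - s ^ 2 / N := by
  have hN0 : 0 < N := by linarith
  have h1 : s ^ 2 ≤ m ^ 2 := sq_le_sq' (abs_le.1 hs).1 (abs_le.1 hs).2
  have h2 : s ^ 2 / N < m := by
    rw [div_lt_iff₀ hN0, ← hN]
    nlinarith [mul_pos hm hm']
  linarith

theorem Clusters.act_pos (h : Clusters c ε) (b : Bool) : 0 < act c ε b := by
  have h1 := csize_pos h.fst
  have h2 := csize_pos h.snd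
  have h3 := csize_add (c := c)
  rcases b with _ | _
  · exact act_aux h2 h1 (by linarith) (h.csum_le false)
  · exact act_aux h1 h2 h3 (h.csum_le true)

theorem Clusters.act_mul (h : Clusters c ε) :
    act c ε true * act c ε false - kap c ε ^ 2
      = (csize c false * (csize c true ^ 2 - csum c ε true ^ 2)
        + csize c true * (csize c false ^ 2 - csum c ε false ^ 2)) / n := by
  have hn : (n : ℝ) ≠ 0 := by exact_mod_cast h.n_pos.ne'
  have h3 := csize_add (c := c)
  rw [act, act, kap]
  rw [← h3] at hn ⊢
  field_simp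
  ring

/-- The two clusters do not both have a constant sign. -/
def Mixed (c : Fin n → Bool) (ε : Fin n → ℝ) : Prop := ∃ i j, c i = c j ∧ ε i ≠ ε j

theorem Clusters.kap_lt (h : Clusters c ε) (hm : Mixed c ε) :
    kap c ε ^ 2 < act c ε true * act c ε false := by
  have hn : (0 : ℝ) < n := by exact_mod_cast h.n_pos
  have h1 := csize_pos h.fst
  have h2 := csize_pos h.snd
  have g1 : 0 ≤ csize c true ^ 2 - csum c ε true ^ 2 :=
    sub_nonneg.2 (sq_le_sq' (abs_le.1 (h.csum_le true)).1 (abs_le.1 (h.csum_le true)).2)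
  have g2 : 0 ≤ csize c false ^ 2 - csum c ε false ^ 2 :=
    sub_nonneg.2 (sq_le_sq' (abs_le.1 (h.csum_le false)).1 (abs_le.1 (h.csum_le false)).2)
  have key : 0 < act c ε true * act c ε false - kap c ε ^ 2 := by
    rw [h.act_mul]
    refine div_pos ?_ hn
    obtain ⟨i, j, hij, he⟩ := hm
    have h4 := h.csum_lt hij he
    rcases hi : c i with _ | _
    · rw [hi] at h4
      have : 0 < csize c true * (csize c false ^ 2 - csum c ε false ^ 2) :=
        mul_pos h1 (by linarith)
      have := mul_nonneg h2.le g1
      linarith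
    · rw [hi] at h4
      have : 0 < csize c false * (csize c true ^ 2 - csum c ε true ^ 2) :=
        mul_pos h2 (by linarith)
      have := mul_nonneg h1.le g2
      linarith
  linarith

/-- Both clusters have a constant sign: no root. -/
theorem Clusters.not_good (h : Clusters c ε) (hm : ¬ Mixed c ε) {t : ℝ} (ht : -1 < t)
    (ht' : t < 1) : ¬ Good (act c ε true) (act c ε false) (kap c ε) t := by
  have h1 := csize_pos h.fst
  have h2 := csize_pos h.snd
  have h3 := csize_add (c := c)
  have hn : (0 : ℝ) < n := by exact_mod_cast h.n_pos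
  unfold Mixed at hm
  push Not at hm
  obtain ⟨p, hp⟩ := h.fst
  obtain ⟨q, hq⟩ := h.snd
  have s1 := csum_const (b := true) fun i hi => hm i p (hi.trans hp.symm)
  have s2 := csum_const (b := false) fun i hi => hm i q (hi.trans hq.symm)
  have e1 := h.sq p
  have e2 := h.sq q
  have a1 : act c ε true = csize c true * csize c false / n := by
    have : csum c ε true ^ 2 = csize c true ^ 2 := by
      rw [s1]
      linear_combination csize c true ^ 2 * e1
    rw [act, this, ← h3]
    field_simp
    ring
  have a2 : act c ε false = csize c true * csize c false / n := by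
    have : csum c ε false ^ 2 = csize c false ^ 2 := by
      rw [s2]
      linear_combination csize c false ^ 2 * e2
    rw [act, this, ← h3]
    field_simp
    ring
  set w : ℝ := csize c true * csize c false / n with hw
  have hwp : 0 < w := by positivity
  have k1 : kap c ε = (ε p * ε q) * w := by
    rw [kap, s1, s2, hw]
    ring
  have k2 : ε p * ε q = 1 ∨ ε p * ε q = -1 := by
    rcases h.sign p with a | a <;> rcases h.sign q with b | b <;> rw [a, b] <;> norm_num
  rintro ⟨g1, -⟩
  rw [a1, a2, k1] at g1
  have hw2 : 0 < w ^ 2 := by positivity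
  rcases k2 with k2 | k2
  · rw [k2] at g1
    have : quar w w (1 * w) t = w ^ 2 * (1 - t) ^ 4 := by
      unfold quar
      ring
    rw [this] at g1
    have : 0 < 1 - t := by linarith
    have : 0 < w ^ 2 * (1 - t) ^ 4 := by positivity
    linarith
  · rw [k2] at g1
    have : quar w w (-1 * w) t = w ^ 2 * (1 + t) ^ 4 := by
      unfold quar
      ring
    rw [this] at g1
    have : 0 < 1 + t := by linarith
    have : 0 < w ^ 2 * (1 + t) ^ 4 := by positivity
    linarith

end Pool.Agent.MPf2d8fcRankTwo
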