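import Mathlib
import Pool.Agent.Lib.MP_f2d8fc_an_h54.Dich

/-!
# Rank two: unit complex numbers with `n * ∑ z ^ 2 = (∑ z) ^ 2`
-/

open Matrix

namespace Pool.Agent.MPf2d8fcRankTwo

open Pool.Agent.MPf2d8fc

variable {n : ℕ}

/-- `A` is the Gram matrix of unit complex numbers, not all equal up to sign, for which
`n * ∑ z ^ 2 = (∑ z) ^ 2`. -/
def Circle (A : Matrix (Fin n) (Fin n) ℝ) : Prop :=
  ∃ z : Fin n → ℂ, (∀ i, ‖z i‖ = 1) ∧ (∃ i j, z i ^ 2 ≠ z j ^ 2) ∧
    n * ∑ i, z i ^ 2 = (∑ i, z i) ^ 2 ∧ ∀ i j, A i j = (z i * star (z j)).re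

theorem sq_re (z : ℂ) : (z ^ 2).re = z.re * z.re - z.im * z.im := by
  rw [pow_two, Complex.mul_re]

theorem sq_im (z : ℂ) : (z ^ 2).im = 2 * (z.re * z.im) := by
  rw [pow_two, Complex.mul_im]
  ring

/-- The moment equation in real coordinates. -/
theorem moment_iff (hn : 0 < n) (z : Fin n → ℂ) :
    n * ∑ i, z i ^ 2 = (∑ i, z i) ^ 2 ↔
      cov (fun i => (z i).re) (fun i => (z i).re) = cov (fun i => (z i).im) (fun i => (z i).im) ∧
      cov (fun i => (z i).re) (fun i => (z i).im) = 0 := by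
  have hn' : (n : ℝ) ≠ 0 := by exact_mod_cast hn.ne'
  rw [cov_eq hn, cov_eq hn, cov_eq hn, Complex.ext_iff]
  have e1 : ((n : ℂ) * ∑ i, z i ^ 2).re
      = n * (∑ i, (z i).re * (z i).re - ∑ i, (z i).im * (z i).im) := by
    rw [Complex.mul_re, Complex.natCast_re, Complex.natCast_im, zero_mul, sub_zero,
      Complex.re_sum, ← Finset.sum_sub_distrib]
    congr 1
    exact Finset.sum_congr rfl fun i _ => sq_re (z i)
  have e2 : ((n : ℂ) * ∑ i, z i ^ 2).im = n * (2 * ∑ i, (z i).re * (z i).im) := by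
    have e3 : ∑ i, (z i ^ 2).im = 2 * ∑ i, (z i).re * (z i).im := by
      rw [Finset.mul_sum]
      exact Finset.sum_congr rfl fun i _ => sq_im (z i)
    rw [Complex.mul_im, Complex.natCast_re, Complex.natCast_im, zero_mul, add_zero,
      Complex.im_sum, e3]
  rw [e1, e2, sq_re, sq_im, Complex.re_sum, Complex.im_sum]
  clear e1 e2
  generalize ∑ i, (z i).re * (z i).re = a
  generalize ∑ i, (z i).im * (z i).im = b
  generalize ∑ i, (z i).re * (z i).im = e
  generalize ∑ i, (z i).re = u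
  generalize ∑ i, (z i).im = v
  constructor
  · rintro ⟨h1, h2⟩
    constructor
    · field_simp
      linear_combination h1
    · field_simp
      linear_combination h2 / 2
  · rintro ⟨h1, h2⟩
    field_simp at h1 h2
    constructor
    · linear_combination h1
    · linear_combination 2 * h2

theorem norm_one_iff (z : ℂ) : ‖z‖ = 1 ↔ z.re * z.re + z.im * z.im = 1 := by
  rw [← Complex.normSq_apply, Complex.normSq_eq_norm_sq]
  constructor
  · intro h
    rw [h]
    norm_num
  · intro h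
    have := norm_nonneg z
    nlinarith

theorem sq_eq_iff_det {z w : ℂ} (hz : ‖z‖ = 1) (hw : ‖w‖ = 1) :
    z ^ 2 = w ^ 2 ↔ z.re * w.im - z.im * w.re = 0 := by
  rw [norm_one_iff] at hz hw
  rw [Complex.ext_iff, sq_re, sq_re, sq_im, sq_im]
  constructor
  · rintro ⟨h1, h2⟩
    have h3 : z.re * z.re = w.re * w.re := by linarith
    have h4 : z.im * z.im = w.im * w.im := by linarith
    have h5 : z.re * z.im = w.re * w.im := by linarith
    have : (z.re * w.im - z.im * w.re) ^ 2 = 0 := by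
      linear_combination (-(z.re * z.re)) * h4 - (z.im * z.im) * h3 + 2 * (z.re * z.im) * h5
    exact pow_eq_zero_iff two_ne_zero |>.1 this
  · intro h
    constructor
    · linear_combination 2 * (z.re * w.im + z.im * w.re) * h
        - (z.re * z.re - z.im * z.im) * hw + (w.re * w.re - w.im * w.im) * hz
    · linear_combination 2 * (z.im * w.im - z.re * w.re) * h
        - 2 * (z.re * z.im) * hw + 2 * (w.re * w.im) * hz

theorem rep_complex {A : Matrix (Fin n) (Fin n) ℝ} {z : Fin n → ℂ}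
    (h : ∀ i j, A i j = (z i * star (z j)).re) :
    Rep A (fun i => (z i).re) (fun i => (z i).im) := by
  intro i j
  rw [h, Complex.mul_re]
  simp

theorem const_of_cov {x : Fin n → ℝ} (h : cov x x = 0) (i : Fin n) : x i = mean x := by
  have h1 := (Finset.sum_eq_zero_iff_of_nonneg
    (fun k _ => mul_self_nonneg (x k - mean x))).1 h i (Finset.mem_univ i)
  have h2 := mul_self_eq_zero.1 h1
  linarith

theorem cov_nonneg (x : Fin n → ℝ) : 0 ≤ cov x x :=
  Finset.sum_nonneg fun _ _ => mul_self_nonneg _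

theorem Circle.mem {A : Matrix (Fin n) (Fin n) ℝ} (h : Circle A) :
    A ∈ FixC n ∧ A.rank = 2 := by
  obtain ⟨z, h1, ⟨p, q, hpq⟩, h3, h4⟩ := h
  have hn : 0 < n := lt_of_le_of_lt (Nat.zero_le _) p.2
  have hr := rep_complex h4
  have hdet : (z p).re * (z q).im - (z p).im * (z q).re ≠ 0 := fun h0 =>
    hpq ((sq_eq_iff_det (h1 p) (h1 q)).2 h0)
  refine ⟨?_, hr.rank (i := p) (j := q) hdet⟩
  rw [moment_iff hn] at h3
  obtain ⟨m1, m2⟩ := h3
  have hunit : ∀ i, (z i).re * (z i).re + (z i).im * (z i).im = 1 := fun i =>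
    (norm_one_iff _).1 (h1 i)
  have hpos : 0 < cov (fun i => (z i).re) (fun i => (z i).re) := by
    rcases (cov_nonneg fun i => (z i).re).lt_or_eq with h | h
    · exact h
    · exfalso
      have a1 := const_of_cov h.symm
      have a2 := const_of_cov (m1.symm.trans h.symm)
      have b1 := a1 p
      have b2 := a1 q
      have b3 := a2 p
      have b4 := a2 q
      beta_reduce at b1 b2 b3 b4
      apply hdet
      rw [b1, b2, b3, b4]
      ring
  rw [mem_FixC_iff hn]
  refine ⟨hr.psd, fun i => (hr i i).trans (hunit i),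
    fun _ => Real.sqrt (cov (fun i => (z i).re) (fun i => (z i).re)),
    fun _ => Real.sqrt_pos.2 hpos, ?_⟩
  ext i j
  rw [hr.gram hn, mul_diagonal, diagonal_mul, ← m1, m2, hr i j]
  have e := Real.mul_self_sqrt hpos.le
  linear_combination (-((z i).re * (z j).re + (z i).im * (z j).im)) * e

/-- The other direction. -/
theorem Circle.of {A : Matrix (Fin n) (Fin n) ℝ} (hn : 0 < n) {x y : Fin n → ℝ}
    (hr : Rep A x y) (hu : ∀ i, A i i = 1) {p q : Fin n} (hdet : x p * y q - y p * x q ≠ 0)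
    (h1 : cov x x = cov y y) (h2 : cov x y = 0) : Circle A := by
  have hnorm : ∀ i, ‖(⟨x i, y i⟩ : ℂ)‖ = 1 := by
    intro i
    rw [norm_one_iff]
    exact (hr i i).symm.trans (hu i)
  refine ⟨fun i => ⟨x i, y i⟩, hnorm, ⟨p, q, ?_⟩, ?_, ?_⟩
  · intro h
    exact hdet ((sq_eq_iff_det (hnorm p) (hnorm q)).1 h)
  · rw [moment_iff hn]
    exact ⟨h1, h2⟩
  · intro i j
    rw [hr i j, Complex.mul_re]
    simp

end Pool.Agent.MPf2d8fcRankTwo
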