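import Mathlib
import Pool.Agent.Lib.MP_f2d8fc_an_h54.Cluster

/-!
# Rank two: which matrices of two signed clusters are fixed
-/

open Matrix

namespace Pool.Agent.MPf2d8fcRankTwo

open Pool.Agent.MPf2d8fc

variable {n : ℕ}

variable {c : Fin n → Bool} {ε : Fin n → ℝ} {t : ℝ}

/-- First coordinates of the vectors of the clusters. -/
noncomputable def xv (c : Fin n → Bool) (ε : Fin n → ℝ) (t : ℝ) (k : Fin n) : ℝ :=
  ε k * (if c k = true then 1 else t)

/-- Second coordinates of the vectors of the clusters. -/
noncomputable def yv (c : Fin n → Bool) (ε : Fin n → ℝ) (t : ℝ) (k : Fin n) : ℝ :=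
  ε k * (if c k = true then 0 else Real.sqrt (1 - t ^ 2))

theorem rsq (h1 : -1 < t) (h2 : t < 1) :
    Real.sqrt (1 - t ^ 2) * Real.sqrt (1 - t ^ 2) = 1 - t ^ 2 :=
  Real.mul_self_sqrt (by nlinarith)

theorem rep_cluster (h1 : -1 < t) (h2 : t < 1) :
    Rep (clusterMat c ε t) (xv c ε t) (yv c ε t) := by
  intro i j
  have e := rsq h1 h2
  rw [clusterMat, of_apply, xv, xv, yv, yv]
  rcases c i with _ | _ <;> rcases c j with _ | _ <;> simp only [if_true, reduceCtorEq, if_false]
  · linear_combination (-(ε i * ε j)) * e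
  · ring
  · ring
  · ring

theorem Clusters.sum_x (_h : Clusters c ε) :
    ∑ k, xv c ε t k = csum c ε true + t * csum c ε false := by
  rw [csum, csum, Finset.mul_sum, ← Finset.sum_add_distrib]
  refine Finset.sum_congr rfl fun k _ => ?_
  rw [xv]
  rcases c k with _ | _
  · simp
    ring
  · simp

theorem Clusters.sum_y (_h : Clusters c ε) :
    ∑ k, yv c ε t k = Real.sqrt (1 - t ^ 2) * csum c ε false := by
  rw [csum, Finset.mul_sum]
  refine Finset.sum_congr rfl fun k _ => ?_
  rw [yv]
  rcases c k with _ | _ <;> simp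
  ring

theorem Clusters.sum_xx (h : Clusters c ε) :
    ∑ k, xv c ε t k * xv c ε t k = csize c true + t ^ 2 * csize c false := by
  rw [csize, csize, Finset.mul_sum, ← Finset.sum_add_distrib]
  refine Finset.sum_congr rfl fun k _ => ?_
  have e := h.sq k
  rw [xv]
  rcases c k with _ | _
  · simp
    linear_combination t ^ 2 * e
  · simp
    linear_combination e

theorem Clusters.sum_xy (h : Clusters c ε) :
    ∑ k, xv c ε t k * yv c ε t k = t * Real.sqrt (1 - t ^ 2) * csize c false := by
  rw [csize, Finset.mul_sum]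
  refine Finset.sum_congr rfl fun k _ => ?_
  have e := h.sq k
  rw [xv, yv]
  rcases c k with _ | _
  · simp
    linear_combination t * Real.sqrt (1 - t ^ 2) * e
  · simp

theorem Clusters.sum_yy (h : Clusters c ε) (h1 : -1 < t) (h2 : t < 1) :
    ∑ k, yv c ε t k * yv c ε t k = (1 - t ^ 2) * csize c false := by
  rw [csize, Finset.mul_sum]
  refine Finset.sum_congr rfl fun k _ => ?_
  have e := h.sq k
  have r := rsq h1 h2
  rw [yv]
  rcases c k with _ | _
  · simp only [reduceCtorEq, if_false, if_true]
    linear_combination (1 - t ^ 2) * e + ε k * ε k * r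
  · simp

theorem Clusters.cov_xx (h : Clusters c ε) :
    cov (xv c ε t) (xv c ε t)
      = act c ε true + act c ε false * t ^ 2 - 2 * kap c ε * t := by
  have hn : (n : ℝ) ≠ 0 := by exact_mod_cast h.n_pos.ne'
  rw [cov_eq h.n_pos, h.sum_xx, h.sum_x, act, act, kap]
  field_simp
  ring

theorem Clusters.cov_xy (h : Clusters c ε) :
    cov (xv c ε t) (yv c ε t)
      = Real.sqrt (1 - t ^ 2) * (act c ε false * t - kap c ε) := by
  have hn : (n : ℝ) ≠ 0 := by exact_mod_cast h.n_pos.ne'
  rw [cov_eq h.n_pos, h.sum_xy, h.sum_x, h.sum_y, act, kap]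
  field_simp
  ring

theorem Clusters.cov_yy (h : Clusters c ε) (h1 : -1 < t) (h2 : t < 1) :
    cov (yv c ε t) (yv c ε t) = (1 - t ^ 2) * act c ε false := by
  have hn : (n : ℝ) ≠ 0 := by exact_mod_cast h.n_pos.ne'
  have r := rsq h1 h2
  rw [cov_eq h.n_pos, h.sum_yy h1 h2, h.sum_y, act]
  field_simp
  linear_combination (-(csum c ε false ^ 2)) * r

/-- The covariances of the rows of the matrix of two signed clusters. -/
theorem Clusters.gram (h : Clusters c ε) (h1 : -1 < t) (h2 : t < 1) (i j : Fin n) :
    (clusterMat c ε t * Hc n * clusterMat c ε t) i j =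
      ε i * ε j * (if c i = c j then
        (if c i = true then act c ε true + act c ε false * t ^ 2 - 2 * kap c ε * t
          else act c ε true * t ^ 2 + act c ε false - 2 * kap c ε * t)
        else quad (act c ε true) (act c ε false) (kap c ε) t) := by
  have r := rsq h1 h2
  rw [(rep_cluster h1 h2).gram h.n_pos, h.cov_xx, h.cov_xy, h.cov_yy h1 h2]
  unfold quad
  simp only [xv, yv]
  generalize act c ε true = a
  generalize act c ε false = b
  generalize kap c ε = κ
  rcases c i with _ | _ <;> rcases c j with _ | _ <;> simp only [if_true, reduceCtorEq, if_false]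
  · linear_combination (ε i * ε j) * (2 * t * (b * t - κ) + (1 - t ^ 2) * b) * r
  · linear_combination (ε i * ε j) * (b * t - κ) * r
  · linear_combination (ε i * ε j) * (b * t - κ) * r
  · ring

theorem alpha_gen {m m' s s' N t : ℝ} (hm : 0 < m) (hm' : 0 < m') (hN : m + m' = N)
    (hs : |s| ≤ m) (hs' : |s'| ≤ m') (ht : |t| < 1) :
    0 < (m - s ^ 2 / N) + (m' - s' ^ 2 / N) * t ^ 2 - 2 * (s * s' / N) * t := by
  have hN0 : 0 < N := by linarith
  have e : (m - s ^ 2 / N) + (m' - s' ^ 2 / N) * t ^ 2 - 2 * (s * s' / N) * t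
      = (N * m + N * m' * t ^ 2 - (s + t * s') ^ 2) / N := by
    field_simp
    ring
  rw [e]
  refine div_pos ?_ hN0
  have h1 : |s + t * s'| ≤ m + |t| * m' := by
    refine (abs_add_le _ _).trans (add_le_add hs ?_)
    rw [abs_mul]
    exact mul_le_mul_of_nonneg_left hs' (abs_nonneg t)
  have h2 : (s + t * s') ^ 2 ≤ (m + |t| * m') ^ 2 :=
    sq_le_sq' (abs_le.1 h1).1 (abs_le.1 h1).2
  have h3 : |t| ^ 2 = t ^ 2 := sq_abs t
  have h4 : 0 < m * m' * (1 - |t|) ^ 2 := by
    have : 0 < 1 - |t| := by linarith
    positivity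
  have h5 : N * m + N * m' * t ^ 2 - (m + |t| * m') ^ 2 = m * m' * (1 - |t|) ^ 2 := by
    rw [← hN, ← h3]
    ring
  linarith

theorem Clusters.alpha (h : Clusters c ε) (h1 : -1 < t) (h2 : t < 1) :
    0 < act c ε true + act c ε false * t ^ 2 - 2 * kap c ε * t :=
  alpha_gen (csize_pos h.fst) (csize_pos h.snd) csize_add (h.csum_le true) (h.csum_le false)
    (abs_lt.2 ⟨h1, h2⟩)

theorem Clusters.gamma (h : Clusters c ε) (h1 : -1 < t) (h2 : t < 1) :
    0 < act c ε true * t ^ 2 + act c ε false - 2 * kap c ε * t := by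
  have := alpha_gen (csize_pos h.snd) (csize_pos h.fst) (N := n)
    (by rw [add_comm]; exact csize_add) (h.csum_le false) (h.csum_le true)
    (abs_lt.2 ⟨h1, h2⟩)
  have e : act c ε true * t ^ 2 + act c ε false - 2 * kap c ε * t
      = (csize c false - csum c ε false ^ 2 / n) + (csize c true - csum c ε true ^ 2 / n) * t ^ 2
        - 2 * (csum c ε false * csum c ε true / n) * t := by
    rw [act, act, kap]
    ring
  rw [e]
  exact this

theorem Clusters.diag (h : Clusters c ε) (i : Fin n) : clusterMat c ε t i i = 1 := by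
  rw [clusterMat, of_apply, if_pos rfl, mul_one, h.sq]

/-- The matrix of two signed clusters is fixed iff `t` is a root which is considered. -/
theorem Clusters.mem_iff (h : Clusters c ε) (h1 : -1 < t) (h2 : t < 1) :
    clusterMat c ε t ∈ FixC n ↔ Good (act c ε true) (act c ε false) (kap c ε) t := by
  have hid := quar_id (act c ε true) (act c ε false) (kap c ε) t
  have ht : 0 < 1 - t ^ 2 := by nlinarith
  rw [mem_FixC_iff h.n_pos]
  constructor
  · rintro ⟨-, -, d, hd, he⟩
    have key : ∀ i j, (clusterMat c ε t * Hc n * clusterMat c ε t) i j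
        = d i * clusterMat c ε t i j * d j := by
      intro i j
      rw [he, mul_diagonal, diagonal_mul]
    obtain ⟨p, hp⟩ := h.fst
    obtain ⟨q, hq⟩ := h.snd
    have k1 := key p p
    have k2 := key q q
    have k3 := key p q
    rw [h.gram h1 h2, h.diag, if_pos rfl, hp, if_pos rfl, h.sq, one_mul] at k1
    rw [h.gram h1 h2, h.diag, if_pos rfl, hq, if_neg (by decide), h.sq, one_mul] at k2
    rw [h.gram h1 h2, clusterMat, of_apply, hp, hq, if_neg (by decide), if_neg (by decide)] at k3
    have k4 : quad (act c ε true) (act c ε false) (kap c ε) t = t * (d p * d q) := by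
      have e1 := h.sq p
      have e2 := h.sq q
      linear_combination (ε p * ε q) * k3
        - (quad (act c ε true) (act c ε false) (kap c ε) t - t * (d p * d q))
          * ((ε q * ε q) * e1 + e2)
    have hp0 := hd p
    have hq0 := hd q
    refine ⟨?_, ?_⟩
    · have : (1 - t ^ 2) * quar (act c ε true) (act c ε false) (kap c ε) t = 0 := by
        rw [← hid, k4, k1, k2]
        ring
      exact (mul_eq_zero.1 this).resolve_left ht.ne'
    · rw [k4]
      have : 0 ≤ t ^ 2 * (d p * d q) := by positivity
      linarith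
  · rintro ⟨g1, g2⟩
    have ha := h.alpha h1 h2
    have hb := h.gamma h1 h2
    set α := act c ε true + act c ε false * t ^ 2 - 2 * kap c ε * t with hα
    set γ := act c ε true * t ^ 2 + act c ε false - 2 * kap c ε * t with hγ
    have sa := Real.sqrt_pos.2 ha
    have sb := Real.sqrt_pos.2 hb
    have ma := Real.mul_self_sqrt ha.le
    have mb := Real.mul_self_sqrt hb.le
    rw [g1, mul_zero] at hid
    have k4 : quad (act c ε true) (act c ε false) (kap c ε) t
        = t * (Real.sqrt α * Real.sqrt γ) := by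
      have k5 : quad (act c ε true) (act c ε false) (kap c ε) t ^ 2
          = (t * (Real.sqrt α * Real.sqrt γ)) ^ 2 := by
        have : (t * (Real.sqrt α * Real.sqrt γ)) ^ 2 = t ^ 2 * (α * γ) := by
          rw [← ma, ← mb]
          rw [Real.sqrt_mul_self sa.le, Real.sqrt_mul_self sb.le]
          ring
        rw [this]
        linarith
      rcases sq_eq_sq_iff_eq_or_eq_neg.1 k5 with k6 | k6
      · exact k6
      · have k7 : 0 < Real.sqrt α * Real.sqrt γ := mul_pos sa sb
        rw [k6] at g2
        have k8 : t ^ 2 * (Real.sqrt α * Real.sqrt γ) ≤ 0 := by nlinarith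
        have k9 : t = 0 := by
          by_contra hc
          have : 0 < t ^ 2 * (Real.sqrt α * Real.sqrt γ) := by positivity
          linarith
        rw [k6, k9]
        ring
    refine ⟨(rep_cluster h1 h2).psd, h.diag, fun i => if c i = true then Real.sqrt α
      else Real.sqrt γ, fun i => ?_, ?_⟩
    · beta_reduce
      split_ifs
      · exact sa
      · exact sb
    · ext i j
      rw [h.gram h1 h2, mul_diagonal, diagonal_mul, clusterMat, of_apply, k4, ← hα, ← hγ]
      rcases c i with _ | _ <;> rcases c j with _ | _ <;>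
        simp only [if_true, reduceCtorEq, if_false]
      · linear_combination (-(ε i * ε j)) * mb
      · ring
      · ring
      · linear_combination (-(ε i * ε j)) * ma

/-- The rank of the matrix of two signed clusters. -/
theorem Clusters.rank (h : Clusters c ε) (h1 : -1 < t) (h2 : t < 1) :
    (clusterMat c ε t).rank = 2 := by
  obtain ⟨p, hp⟩ := h.fst
  obtain ⟨q, hq⟩ := h.snd
  refine (rep_cluster h1 h2).rank (i := p) (j := q) ?_
  have hs : 0 < Real.sqrt (1 - t ^ 2) := Real.sqrt_pos.2 (by nlinarith)
  rw [xv, xv, yv, yv, hp, hq]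
  simp only [if_true, reduceCtorEq, if_false]
  have e : ε p * 1 * (ε q * Real.sqrt (1 - t ^ 2)) - ε p * 0 * (ε q * t)
      = ε p * ε q * Real.sqrt (1 - t ^ 2) := by ring
  rw [e]
  refine mul_ne_zero (mul_ne_zero ?_ ?_) hs.ne'
  · intro h0
    have := h.sq p
    rw [h0] at this
    norm_num at this
  · intro h0
    have := h.sq q
    rw [h0] at this
    norm_num at this

end Pool.Agent.MPf2d8fcRankTwo
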