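import Mathlib
import Pool.Agent.Lib.MP_f2d8fc_an_h54.TypeOne
import Pool.Agent.Lib.MP_f2d8fc_an_h54.TypeTwo

/-!
# Rank two: the classification
-/

open Matrix

namespace Pool.Agent.MPf2d8fcRankTwo

open Pool.Agent.MPf2d8fc

variable {n : ℕ}

/-- `A` is the matrix of two signed clusters, not both with a constant sign, with a root `t` as
the correlation between them. -/
def TwoLines (A : Matrix (Fin n) (Fin n) ℝ) : Prop :=
  ∃ (c : Fin n → Bool) (ε : Fin n → ℝ) (t : ℝ), Clusters c ε ∧ Mixed c ε ∧ -1 < t ∧ t < 1 ∧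
    Good (act c ε true) (act c ε false) (kap c ε) t ∧ A = clusterMat c ε t

theorem pos_of_rank {A : Matrix (Fin n) (Fin n) ℝ} (h2 : A.rank = 2) : 0 < n := by
  rcases Nat.eq_zero_or_pos n with h0 | h0
  · subst h0
    have := Matrix.rank_le_card_width A
    rw [h2] at this
    simp at this
  · exact h0

theorem rankTwo_iff (A : Matrix (Fin n) (Fin n) ℝ) :
    (A ∈ FixC n ∧ A.rank = 2) ↔ (Circle A ∨ TwoLines A) := by
  constructor
  · rintro ⟨hF, h2⟩
    have hn := pos_of_rank h2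
    obtain ⟨hP, hu, d, hd, he⟩ := (mem_FixC_iff hn A).1 hF
    obtain ⟨x, y, hr⟩ := exists_rep hP h2
    obtain ⟨p, q, hpq⟩ := hr.exists_det hu h2
    have hS : Sys x y d (cov x x) (cov y y) (cov x y) := by
      refine ⟨fun i => (hr i i).symm.trans (hu i), hd, fun i j => ?_⟩
      have := congrFun (congrFun he i) j
      rw [hr.gram hn, mul_diagonal, diagonal_mul, hr i j] at this
      exact this
    by_cases h3 : ∃ k, x p * y k - y p * x k ≠ 0 ∧ x q * y k - y q * x k ≠ 0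
    · obtain ⟨k, hk1, hk2⟩ := h3
      obtain ⟨g1, g2⟩ := hS.three hpq hk1 hk2
      exact Or.inl (Circle.of hn hr hu hpq g1 g2)
    · right
      obtain ⟨c, ε, t, hC, t1, t2, hA⟩ := hS.two hr hpq fun k => by
        by_contra hc
        push Not at hc
        exact h3 ⟨k, hc⟩
      have hG : Good (act c ε true) (act c ε false) (kap c ε) t := by
        rw [← hC.mem_iff t1 t2, ← hA]
        exact hF
      refine ⟨c, ε, t, hC, ?_, t1, t2, hG, hA⟩
      by_contra hm
      exact hC.not_good hm t1 t2 hG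
  · rintro (h | ⟨c, ε, t, hC, -, t1, t2, hG, rfl⟩)
    · exact h.mem
    · exact ⟨(hC.mem_iff t1 t2).2 hG, hC.rank t1 t2⟩

theorem Clusters.existsUnique {c : Fin n → Bool} {ε : Fin n → ℝ} (h : Clusters c ε)
    (hm : Mixed c ε) : ∃! t : ℝ, (-1 < t ∧ t < 1) ∧ clusterMat c ε t ∈ FixC n := by
  obtain ⟨⟨t, t1, t2, ht⟩, hu, -⟩ := exists_unique (h.act_pos true) (h.act_pos false)
    (h.kap_lt hm)
  refine ⟨t, ⟨⟨t1, t2⟩, (h.mem_iff t1 t2).2 ht⟩, ?_⟩
  rintro u ⟨⟨u1, u2⟩, hF⟩
  exact hu u t u1 u2 ((h.mem_iff u1 u2).1 hF) t1 t2 ht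

theorem Clusters.sign_eq {c : Fin n → Bool} {ε : Fin n → ℝ} (h : Clusters c ε) {t : ℝ}
    (t1 : -1 < t) (t2 : t < 1) (hF : clusterMat c ε t ∈ FixC n) :
    SignType.sign t = SignType.sign (kap c ε) := by
  have hG := (h.mem_iff t1 t2).1 hF
  have hm : Mixed c ε := by
    by_contra hm
    exact h.not_good hm t1 t2 hG
  exact (exists_unique (h.act_pos true) (h.act_pos false) (h.kap_lt hm)).2.2 t hG

end Pool.Agent.MPf2d8fcRankTwo
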